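import Pool.Agent.K3h67.CHT.Main

set_option autoImplicit false

/-!
# MP_068809_gt, Q1: the answer is no, part (i) fails for `(12,12,12)`

The triple `(12,12,12)` has type B. The complex hyperbolic `(12,12,12)` triangle group with the
angular invariant `11 π / 12` is discrete and infinite, but `W_A` is mapped to an elliptic element
whose twelfth power is trivial, while `W_A` has infinite order in `Γ(12,12,12)`. So this
representation is not faithful, and its parameter is outside of the interval on which neither `W_A`
nor `W_B` is elliptic.

The proof. Let `c = cos (π / 12)`. The parameter is the one with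
`⟨n₁,n₂⟩⟨n₂,n₃⟩⟨n₃,n₁⟩ = c³ exp (-π i / 12)`. In the basis `n₁, 2 c n₂, n₃` the matrices of the three
reflections have entries in the ring `ℤ[ζ]`, `ζ = exp (π i / 6)`, and the conjugate matrices
(`√3 ↦ -√3`) preserve a positive definite Hermitian form; so the group is discrete. It is infinite
since `σ₁ σ₂σ₃σ₁σ₃σ₂` is loxodromic. Type B: along the family `W_A` is elliptic only if the real part
of the triple product is at least `5 (1 + √3) / 16`, and for the triangle with the smaller real part
`(9 + 9 √3 + √(6 √3 - 4)) / 32` the element `W_B` has a negative eigenvector with the eigenvalue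
`exp (2 π i / 3)`.
-/

namespace Pool.Agent.Results.MP_068809_gt.TypeBNotFaithful

open Pool.Agent.K3h67.CHT

/-- The triple `(12,12,12)` has type B, and there is a `(12,12,12)` triangle group `ρ` with discrete
and infinite image which is not injective and for which `ρ(W_A)` is elliptic. -/
theorem result : TypeB 12 12 12 ∧
    ∃ (n : Fin 3 → V) (ρ : Gam 12 12 12 →* PU21), IsTriangleRep 12 12 12 n ρ ∧
      ang n = 11 * Real.pi / 12 ∧
      DiscreteTopology ρ.range ∧ Infinite ρ.range ∧
      IsElliptic (ρ (WA 12 12 12)) ∧ ρ (WA 12 12 12) ^ 12 = 1 ∧
      (∀ k : ℕ, 0 < k → WA 12 12 12 ^ k ≠ 1) ∧ ¬ Function.Injective ρ :=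
  main

end Pool.Agent.Results.MP_068809_gt.TypeBNotFaithful
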